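import Pool.Agent.Lib.MP_19e880_co_G2.Final
import Pool.Agent.Lib.MP_19e880_co_G2.Inst

/-!
Nonnegativity and monotonicity of `γ₂` for all flag homology spheres; the conjecture for `d ≤ 5`.
-/

set_option autoImplicit false

namespace Pool.Agent.Results.MP_19e880_co.GammaTwoNonneg

/-- Every flag homology `(d-1)`-sphere over any field satisfies `γ₂ ≥ 0` if `d ≥ 4`, and
`γ₂ (lk F) ≤ γ₂` for all faces `F` with `|F| ≤ d - 4`. If `d ≤ 5`, then its whole gamma vector is
nonnegative. -/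
theorem result :
  ∀ (k : Type) [Field k] (n d : ℕ) (S : Finset (Finset (Fin n)))
    (r : Finset (Finset (Fin n)) → ℕ → ℕ),
    (∀ F ∈ S, ∀ G : Finset (Fin n), G ⊆ F → G ∈ S) →
    (∀ F : Finset (Fin n), (∀ a ∈ F, ∀ b ∈ F, ({a, b} : Finset (Fin n)) ∈ S) → F ∈ S) →
    (∀ (L : Finset (Finset (Fin n))) (j : ℕ),
      r L j = Matrix.rank (Matrix.of
        (fun (A : {A : Finset (Fin n) // A ∈ L.filter (fun A => A.card = j - 1)})
             (B : {B : Finset (Fin n) // B ∈ L.filter (fun B => B.card = j)}) =>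
          ∑ v ∈ B.1, if B.1.erase v = A.1
            then (-1 : k) ^ (B.1.filter (fun w => w < v)).card else 0))) →
    (∀ F ∈ S, ∀ j : ℕ,
      ((((S.filter (fun G => Disjoint G F ∧ G ∪ F ∈ S)).filter
            (fun G => G.card = j)).card : ℤ)
        - (r (S.filter (fun G => Disjoint G F ∧ G ∪ F ∈ S)) j : ℤ)
        - (r (S.filter (fun G => Disjoint G F ∧ G ∪ F ∈ S)) (j + 1) : ℤ))
        = if j + F.card = d then 1 else 0) →
    ∀ γ : ℕ → ℤ,
      (∑ j ∈ Finset.range (d + 1),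
          Polynomial.C (((S.filter (fun G => G.card = j)).card : ℕ) : ℤ)
            * Polynomial.X ^ j * (1 - Polynomial.X) ^ (d - j)
        = ∑ i ∈ Finset.range (d / 2 + 1),
          Polynomial.C (γ i) * Polynomial.X ^ i * (1 + Polynomial.X) ^ (d - 2 * i)) →
      (4 ≤ d → 0 ≤ γ 2 ∧ ∀ F ∈ S, F.card + 4 ≤ d → ∀ γ' : ℕ → ℤ,
        (∑ j ∈ Finset.range (d - F.card + 1),
            Polynomial.C ((((S.filter (fun G => Disjoint G F ∧ G ∪ F ∈ S)).filter
                (fun G => G.card = j)).card : ℕ) : ℤ)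
              * Polynomial.X ^ j * (1 - Polynomial.X) ^ (d - F.card - j)
          = ∑ i ∈ Finset.range ((d - F.card) / 2 + 1),
            Polynomial.C (γ' i) * Polynomial.X ^ i
              * (1 + Polynomial.X) ^ (d - F.card - 2 * i)) →
        γ' 2 ≤ γ 2) ∧
      (d ≤ 5 → ∀ i : ℕ, i ≤ d / 2 → 0 ≤ γ i) := by
  intro k _ n d S r hS hfl hr hrk γ hγ
  have hrc : Pool.Agent.MP19e880.RankCond k S d := by
    intro F hF j
    have h := hrk F hF j
    rw [hr, hr] at h
    exact h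
  have h := Pool.Agent.MP19e880.HS_of_rank S d hS hfl hrc
  have hE := Pool.Agent.MP19e880.Eul_of_rank S d hS hfl hrc
  have h0 : (∅ : Finset (Fin n)) ∈ S := hfl ∅ (by simp)
  have hL := Pool.Agent.MP19e880.G2.lemmaL (Pool.Agent.MP19e880.fam h hE)
  exact Pool.Agent.MP19e880.G2.gamma_main h hE hL h0 γ hγ

end Pool.Agent.Results.MP_19e880_co.GammaTwoNonneg
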