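import Pool.Agent.Lib.MP_19e880_co_W1.Final

/-!
A local-to-global Charney-Davis inequality: the last entry of the gamma vector of a flag homology
sphere is nonnegative if the links of its faces carry local certificates.
-/

set_option autoImplicit false

namespace Pool.Agent.Results.MP_19e880_co.LocalCharneyDavis

/-- The link of the face `F` in `S`. -/
def link {n : ℕ} (S : Finset (Finset (Fin n))) (F : Finset (Fin n)) : Finset (Finset (Fin n)) :=
  S.filter (fun G => Disjoint G F ∧ G ∪ F ∈ S)

/-- The rank over `k` of the boundary map from the faces of `L` with `j` vertices to those with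
`j - 1` vertices. -/
noncomputable def rk (k : Type) [Field k] {n : ℕ} (L : Finset (Finset (Fin n))) (j : ℕ) : ℕ :=
  Matrix.rank (Matrix.of
    (fun (A : {A : Finset (Fin n) // A ∈ L.filter (fun A => A.card = j - 1)})
         (B : {B : Finset (Fin n) // B ∈ L.filter (fun B => B.card = j)}) =>
      ∑ v ∈ B.1, if B.1.erase v = A.1
        then (-1 : k) ^ (B.1.filter (fun w => w < v)).card else 0))

/-- The contraction of the edge `u v` onto `u`. -/
def contract {n : ℕ} (S : Finset (Finset (Fin n))) (u v : Fin n) : Finset (Finset (Fin n)) :=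
  S.image (fun F => F.image (fun w => if w = v then u else w))

/-- `Clo S m E X`: a closure certificate for the graph with edge set `E` on the vertex set `X`,
inside the complex `S`. `zero`, `one`: `m = 0`, or `m = 1` and two vertices of `X` are not adjacent
in `S`; `pair`: `X` consists of two vertices not adjacent in `S`; `vert`: a new vertex `x`, with
a certificate for `m - 1` on its neighbours; `edge`: a new edge `x y` of `S`, with a certificate for
`m - 2` on the common neighbours of `x` and `y`. -/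
inductive Clo {n : ℕ} (S : Finset (Finset (Fin n))) :
    ℕ → Finset (Finset (Fin n)) → Finset (Fin n) → Prop
  | zero (E : Finset (Finset (Fin n))) (X : Finset (Fin n)) : Clo S 0 E X
  | one (E : Finset (Finset (Fin n))) (X : Finset (Fin n)) (a b : Fin n) : a ∈ X → b ∈ X →
      a ≠ b → {a, b} ∉ S → Clo S 1 E X
  | pair (m : ℕ) (E : Finset (Finset (Fin n))) (a b : Fin n) : a ≠ b → {a, b} ∉ S →
      Clo S m E {a, b}
  | vert (m : ℕ) (E : Finset (Finset (Fin n))) (X : Finset (Fin n)) (x : Fin n) : x ∉ X →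
      Clo S (m + 1) E X → Clo S m E (X.filter (fun w => w ≠ x ∧ {x, w} ∈ E)) →
      Clo S (m + 1) E (insert x X)
  | edge (m : ℕ) (E : Finset (Finset (Fin n))) (X : Finset (Fin n)) (x y : Fin n) : x ∈ X →
      y ∈ X → x ≠ y → {x, y} ∈ S → Clo S (m + 2) E X →
      Clo S m E (X.filter (fun w => w ≠ x ∧ w ≠ y ∧ {x, w} ∈ E ∧ {y, w} ∈ E)) →
      Clo S (m + 2) (insert {x, y} E) X

/-- The certificates `Red k d m S`, for `S` a flag homology `(d-1)`-sphere:
`low`: `m ≤ 2` and `2 m ≤ d + 1`;
`susp`: `S` is a suspension;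
`clos`: the whole graph of `S` has a closure certificate;
`flat`: `d = 2 i`, `Red k d i S`, and the Charney-Davis number of `S` is zero;
`ctr`: an edge `u v` in no induced 4-cycle, the contraction of the edge has `Red k d m`, and the
link of the edge has `Red k (d-2) (m-1)`;
`loc`: a set `R` of exceptional vertices such that either no face of `S` inside `R` has more than
`d - m` vertices, or, for every face `F` inside `R`, the part of the link of `F` outside `R` has
vanishing reduced homology up to degree `m - 2 - |F|`; and the link of every nonempty face `σ`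
disjoint from `R` with at most `m` vertices has `Red k (d-|σ|) (m+1-|σ|)`. -/
inductive Red (k : Type) [Field k] {n : ℕ} : ℕ → ℕ → Finset (Finset (Fin n)) → Prop
  | low (d m : ℕ) (S : Finset (Finset (Fin n))) : m ≤ 2 → 2 * m ≤ d + 1 → Red k d m S
  | susp (d m : ℕ) (S : Finset (Finset (Fin n))) (a b : Fin n) : {a} ∈ S → {b} ∈ S →
      {a, b} ∉ S → (∀ w, {w} ∈ S → w ≠ a → w ≠ b → {a, w} ∈ S ∧ {b, w} ∈ S) → Red k d m S
  | clos (d m : ℕ) (S : Finset (Finset (Fin n))) :
      Clo S m (S.filter (fun F => F.card = 2)) (Finset.univ.filter (fun v => {v} ∈ S)) →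
      Red k d m S
  | flat (i m : ℕ) (S : Finset (Finset (Fin n))) : Red k (2 * i) i S →
      ∑ F ∈ S, (-2 : ℤ) ^ (2 * i - F.card) = 0 → Red k (2 * i) m S
  | ctr (d m : ℕ) (S : Finset (Finset (Fin n))) (u v : Fin n) : u ≠ v → {u, v} ∈ S →
      (∀ s t, {u, s} ∈ S → {v, t} ∈ S → {s, t} ∈ S → {v, s} ∈ S ∨ {u, t} ∈ S) →
      Red k d m (contract S u v) → Red k (d - 2) (m - 1) (link S {u, v}) → Red k d m S
  | loc (d m : ℕ) (S : Finset (Finset (Fin n))) (R : Finset (Fin n)) :
      ((∀ F ∈ S, F ⊆ R → F.card + m ≤ d) ∨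
        (∀ F ∈ S, F ⊆ R → ∀ j, j + F.card < m →
          (((link S F).filter (fun G => Disjoint G R)).filter (fun G => G.card = j)).card =
            rk k ((link S F).filter (fun G => Disjoint G R)) j +
            rk k ((link S F).filter (fun G => Disjoint G R)) (j + 1))) →
      (∀ σ ∈ S, σ ≠ ∅ → Disjoint σ R → σ.card ≤ m →
        Red k (d - σ.card) (m + 1 - σ.card) (link S σ)) → Red k d m S

theorem clo_clos {n m : ℕ} {S E : Finset (Finset (Fin n))} {X : Finset (Fin n)}
    (h : Clo S m E X) : Pool.Agent.MP19e880.W1.Clos S m E X := by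
  induction h with
  | zero E X => exact .zero E X
  | one E X a b h1 h2 h3 h4 => exact .one E X a b h1 h2 h3 h4
  | pair m E a b h1 h2 => exact .pair m E a b h1 h2
  | vert m E X x h1 _ _ ih1 ih2 => exact .vert m E X x h1 ih1 ih2
  | edge m E X x y h1 h2 h3 h4 _ _ ih1 ih2 => exact .edge m E X x y h1 h2 h3 h4 ih1 ih2

theorem red_cert {k : Type} [Field k] {n d m : ℕ} {S : Finset (Finset (Fin n))}
    (h : Red k d m S) : Pool.Agent.MP19e880.W1.Cert k d m S := by
  induction h with
  | low d m S h1 h2 => exact .low d m S h1 h2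
  | susp d m S a b h1 h2 h3 h4 => exact .susp d m S a b h1 h2 h3 h4
  | clos d m S h1 =>
    refine .clos d m S ?_
    have h2 : Pool.Agent.MP19e880.lv S ∅ = Finset.univ.filter (fun v => {v} ∈ S) := by
      ext v
      rw [Pool.Agent.MP19e880.W1.mem_lv0, Finset.mem_filter]
      simp
    rw [h2]
    exact clo_clos h1
  | flat i m S _ h2 ih => exact .flat i m S ih h2
  | ctr d m S u v h1 h2 h3 _ _ ih1 ih2 => exact .ctr d m S u v h1 h2 h3 ih1 ih2
  | loc d m S R h1 _ ih => exact .loc d m S R h1 ih

/-- Let `S` be a flag homology `(d-1)`-sphere over any field. If `S` (for even `d`), or the link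
of every vertex (for odd `d`), has the certificate `Red k (2⌊d/2⌋) ⌊d/2⌋`, then the last entry
`γ_⌊d/2⌋` of the gamma vector is nonnegative, and for `d ≤ 7` the whole gamma vector is. -/
theorem result :
  ∀ (k : Type) [Field k] (n d : ℕ) (S : Finset (Finset (Fin n)))
    (r : Finset (Finset (Fin n)) → ℕ → ℕ),
    (∀ F ∈ S, ∀ G : Finset (Fin n), G ⊆ F → G ∈ S) →
    (∀ F : Finset (Fin n), (∀ a ∈ F, ∀ b ∈ F, ({a, b} : Finset (Fin n)) ∈ S) → F ∈ S) →
    (∀ (L : Finset (Finset (Fin n))) (j : ℕ),
      r L j = Matrix.rank (Matrix.of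
        (fun (A : {A : Finset (Fin n) // A ∈ L.filter (fun A => A.card = j - 1)})
             (B : {B : Finset (Fin n) // B ∈ L.filter (fun B => B.card = j)}) =>
          ∑ v ∈ B.1, if B.1.erase v = A.1
            then (-1 : k) ^ (B.1.filter (fun w => w < v)).card else 0))) →
    (∀ F ∈ S, ∀ j : ℕ,
      ((((S.filter (fun G => Disjoint G F ∧ G ∪ F ∈ S)).filter
            (fun G => G.card = j)).card : ℤ)
        - (r (S.filter (fun G => Disjoint G F ∧ G ∪ F ∈ S)) j : ℤ)
        - (r (S.filter (fun G => Disjoint G F ∧ G ∪ F ∈ S)) (j + 1) : ℤ))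
        = if j + F.card = d then 1 else 0) →
    ∀ γ : ℕ → ℤ,
      (∑ j ∈ Finset.range (d + 1),
          Polynomial.C (((S.filter (fun G => G.card = j)).card : ℕ) : ℤ)
            * Polynomial.X ^ j * (1 - Polynomial.X) ^ (d - j)
        = ∑ i ∈ Finset.range (d / 2 + 1),
          Polynomial.C (γ i) * Polynomial.X ^ i * (1 + Polynomial.X) ^ (d - 2 * i)) →
      (∀ σ ∈ S, σ.card = d % 2 → Red k (2 * (d / 2)) (d / 2) (link S σ)) →
      0 ≤ γ (d / 2) ∧ (d ≤ 7 → ∀ i : ℕ, i ≤ d / 2 → 0 ≤ γ i) := by
  intro k _ n d S r hS hfl hr hrk γ hγ hc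
  have hrc : Pool.Agent.MP19e880.RankCond k S d := by
    intro F hF j
    have h := hrk F hF j
    rw [hr, hr] at h
    exact h
  have h := Pool.Agent.MP19e880.HS_of_rank S d hS hfl hrc
  have hE := Pool.Agent.MP19e880.Eul_of_rank S d hS hfl hrc
  have h0 : (∅ : Finset (Fin n)) ∈ S := hfl ∅ (by simp)
  exact Pool.Agent.MP19e880.W1.final h hE h0 γ hγ (fun σ hσ hσd => red_cert (hc σ hσ hσd))

end Pool.Agent.Results.MP_19e880_co.LocalCharneyDavis
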