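import Pool.Agent.Lib.MP_19e880_co_AR.AkL
import Pool.Agent.Lib.MP_19e880_co_AR.Fla
import Pool.Agent.Lib.MP_19e880_co_AR.Es2

/-!
# MP_19e880_co: the gamma vector of simplicial hyperplane arrangements

Gal's question Q1 has a positive answer for the face complexes of all simplicial hyperplane
arrangements, and for all complexes obtained from them by subdividing edges.
-/

set_option autoImplicit false
set_option linter.unusedSectionVars false

open Finset Module

namespace Pool.Agent.Results.MP_19e880_co.SimplicialArrangements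

/-- `S` is the face complex of the (essential) simplicial arrangement of the hyperplanes `φ i = 0`
in `ℝ ^ d`, where `p v` is a vector on the ray `v`: the vectors of a face are linearly independent,
the open cones spanned by the faces cover the space, and two points of such cones are on the same
side of each hyperplane (or both on it) if and only if the cones are equal. -/
structure IsArrangementComplex {n m d : ℕ} (φ : Fin m → (Fin d → ℝ) →ₗ[ℝ] ℝ)
    (p : Fin n → Fin d → ℝ) (S : Finset (Finset (Fin n))) : Prop where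
  nz : ∀ i, φ i ≠ 0
  down : ∀ F ∈ S, ∀ G : Finset (Fin n), G ⊆ F → G ∈ S
  li : ∀ F ∈ S, LinearIndependent ℝ (fun v : F => p v)
  cover : ∀ x : Fin d → ℝ, ∃ F ∈ S, ∃ c : Fin n → ℝ,
    (∀ v ∈ F, 0 < c v) ∧ x = ∑ v ∈ F, c v • p v
  sign : ∀ F ∈ S, ∀ F' ∈ S, ∀ c c' : Fin n → ℝ, (∀ v ∈ F, 0 < c v) → (∀ v ∈ F', 0 < c' v) →
    ((∀ i, SignType.sign (φ i (∑ v ∈ F, c v • p v)) =
      SignType.sign (φ i (∑ v ∈ F', c' v • p v))) ↔ F = F')

/-- The stellar subdivision of the edge `{a, b}` of `S` with the new vertex `c`: the faces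
containing `a` and `b` are removed, and the faces `G ∪ {c}` are added, where `G` does not contain
both `a` and `b` and `G ∪ {a, b}` is a face. -/
def subdivide {n : ℕ} (S : Finset (Finset (Fin n))) (a b c : Fin n) : Finset (Finset (Fin n)) :=
  S.filter (fun G => ¬ (a ∈ G ∧ b ∈ G)) ∪
    (S.filter (fun G => ¬ (a ∈ G ∧ b ∈ G) ∧ insert a (insert b G) ∈ S)).image (insert c)

/-- The complexes (with vertices among `0, …, n - 1`) obtained from the face complexes of simplicial
arrangements in `ℝ ^ d` by subdividing edges. -/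
inductive ArrangementClass (d n : ℕ) : Finset (Finset (Fin n)) → Prop
  | arrangement (m : ℕ) (φ : Fin m → (Fin d → ℝ) →ₗ[ℝ] ℝ) (p : Fin n → Fin d → ℝ)
      (S : Finset (Finset (Fin n))) (h : IsArrangementComplex φ p S) : ArrangementClass d n S
  | subdivision (S : Finset (Finset (Fin n))) (a b c : Fin n) (h : ArrangementClass d n S)
      (hne : a ≠ b) (hab : ({a, b} : Finset (Fin n)) ∈ S) (hc : ({c} : Finset (Fin n)) ∉ S) :
      ArrangementClass d n (subdivide S a b c)

/-- Every complex `S` in the class is flag, and its h-polynomial is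
`∑ γ_i X ^ i (1 + X) ^ (d - 2 i)` with nonnegative integers `γ_i`. -/
theorem result (d n : ℕ) (S : Finset (Finset (Fin n))) (hS : ArrangementClass d n S) :
    (∀ F : Finset (Fin n), (∀ a ∈ F, ∀ b ∈ F, ({a, b} : Finset (Fin n)) ∈ S) → F ∈ S) ∧
    (∃ γ : ℕ → ℕ,
      ∑ j ∈ Finset.range (d + 1),
          Polynomial.C (((S.filter (fun G => G.card = j)).card : ℕ) : ℤ)
            * Polynomial.X ^ j * (1 - Polynomial.X) ^ (d - j)
        = ∑ i ∈ Finset.range (d / 2 + 1),
          Polynomial.C ((γ i : ℕ) : ℤ) * Polynomial.X ^ i * (1 + Polynomial.X) ^ (d - 2 * i)) ∧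
    ∀ γ : ℕ → ℤ,
      (∑ j ∈ Finset.range (d + 1),
          Polynomial.C (((S.filter (fun G => G.card = j)).card : ℕ) : ℤ)
            * Polynomial.X ^ j * (1 - Polynomial.X) ^ (d - j)
        = ∑ i ∈ Finset.range (d / 2 + 1),
          Polynomial.C (γ i) * Polynomial.X ^ i * (1 + Polynomial.X) ^ (d - 2 * i)) →
      ∀ i : ℕ, i ≤ d / 2 → 0 ≤ γ i := by
  have key : (∀ F ∈ S, ∀ G : Finset (Fin n), G ⊆ F → G ∈ S) ∧ (∀ F ∈ S, F.card ≤ d) ∧
      (∀ F : Finset (Fin n), (∀ a ∈ F, ∀ b ∈ F, ({a, b} : Finset (Fin n)) ∈ S) → F ∈ S) ∧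
      ∀ σ ∈ S, Pool.Agent.MP19e880.AR.GPos (d - σ.card) (Pool.Agent.MP19e880.AR.hl S d σ) := by
    induction hS with
    | arrangement m φ p S h =>
      have h' : Pool.Agent.MP19e880.AR.IsArr φ p S := ⟨h.nz, h.down, h.li, h.cover, h.sign⟩
      have hd : finrank ℝ (Fin d → ℝ) = d := Module.finrank_fin_fun ℝ
      refine ⟨h.down, fun F hF => ?_, fun F hF => h'.flag hF, h'.gpos hd⟩
      exact (h'.card_le hF).trans hd.le
    | subdivision S a b c h hne hab hc ih =>
      obtain ⟨h1, h2, h3, h4⟩ := ih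
      have h5 : Pool.Agent.MP19e880.AR.EdgeData S d a b c := ⟨h1, h2, hne, hab, hc⟩
      exact ⟨Pool.Agent.MP19e880.AR.edgeSub_down h5, Pool.Agent.MP19e880.AR.edgeSub_card h5,
        Pool.Agent.MP19e880.AR.edgeSub_flag h5 h3, Pool.Agent.MP19e880.AR.edgeSub_pos h5 h4⟩
  obtain ⟨h1, h2, h3, h4⟩ := key
  have hemp : (∅ : Finset (Fin n)) ∈ S := h3 ∅ (fun a ha => absurd ha (Finset.notMem_empty a))
  obtain ⟨γ, hγ⟩ := h4 ∅ hemp
  rw [Finset.card_empty, Nat.sub_zero] at hγ
  have h5 : ∑ j ∈ Finset.range (d + 1),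
      Polynomial.C (((S.filter (fun G => G.card = j)).card : ℕ) : ℤ)
        * (Polynomial.X : Polynomial ℤ) ^ j * (1 - Polynomial.X) ^ (d - j) =
      Pool.Agent.MP19e880.AR.hl S d ∅ := by
    unfold Pool.Agent.MP19e880.AR.hl
    have h6 : S.filter (fun G => (∅ : Finset (Fin n)) ⊆ G) = S :=
      Finset.filter_true_of_mem (fun G _ => Finset.empty_subset G)
    rw [h6, Finset.card_empty,
      ← Finset.sum_fiberwise_of_maps_to (s := S) (t := Finset.range (d + 1)) (g := Finset.card)
        (fun G hG => Finset.mem_range.mpr (Nat.lt_succ_of_le (h2 G hG)))]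
    refine Finset.sum_congr rfl (fun j _ => ?_)
    rw [Finset.sum_congr rfl (g := fun _ => (Polynomial.X : Polynomial ℤ) ^ j *
      (1 - Polynomial.X) ^ (d - j)) (fun G hG => by
        rw [(Finset.mem_filter.mp hG).2, Nat.sub_zero]), Finset.sum_const, nsmul_eq_mul]
    simp [mul_assoc]
  refine ⟨h3, ⟨γ, h5.trans hγ⟩, ?_⟩
  intro γ' hγ' i hi
  have h6 : ∀ i, i ≤ d / 2 → γ' i = ((γ i : ℕ) : ℤ) := by
    refine Pool.Agent.MP19e880.AR.gaml_unique d γ' (fun j => ((γ j : ℕ) : ℤ)) ?_
    rw [← hγ', h5, hγ]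
  rw [h6 i hi]
  positivity

end Pool.Agent.Results.MP_19e880_co.SimplicialArrangements
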