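import Pool.Agent.Lib.MP_19e880_co_DB.Fin
import Pool.Agent.Lib.MP_19e880_co_DB.Rig

/-!
Gal's conjecture for flag homology spheres with small `γ₂`, and the rigidity of `γ₂` under links.
-/

set_option autoImplicit false

namespace Pool.Agent.Results.MP_19e880_co.SmallGammaTwo

/-- The link of the face `F` in `S`. -/
def link {n : ℕ} (S : Finset (Finset (Fin n))) (F : Finset (Fin n)) : Finset (Finset (Fin n)) :=
  S.filter (fun G => Disjoint G F ∧ G ∪ F ∈ S)

/-- The contraction of the edge `a b` onto `a`. -/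
def contract {n : ℕ} (S : Finset (Finset (Fin n))) (a b : Fin n) : Finset (Finset (Fin n)) :=
  S.image (fun F => F.image (fun w => if w = b then a else w))

/-- The number of faces of `L` with `j` vertices. -/
def faces {n : ℕ} (L : Finset (Finset (Fin n))) (j : ℕ) : ℕ :=
  (L.filter (fun G => G.card = j)).card

/-- `f₁ - (2 r - 3) f₀ + 2 r (r - 2)` for the link of the face `F` of a flag homology
`(d-1)`-sphere `S`, where `r = d - |F|` is the rank of the link: this is `γ₂` of the link if
`r ≥ 4`, and it is zero if `r ≤ 3`. -/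
def gammaTwo {n : ℕ} (S : Finset (Finset (Fin n))) (d : ℕ) (F : Finset (Fin n)) : ℤ :=
  (faces (link S F) 2 : ℤ) - (2 * ((d : ℤ) - F.card) - 3) * faces (link S F) 1 +
    2 * ((d : ℤ) - F.card) * ((d : ℤ) - F.card - 2)

/-- The link of `F`, of rank `r = d - |F|`, has `γ₂ ≤ 3`; or `r ≤ 7` and its links of rank `6`
have `γ₂ ≤ 5`; or `r ≥ 8` and its links of rank `8` have `γ₂ ≤ 3`; or `r ≥ 6` and its links of
rank `6` have `γ₂ ≤ 2`. -/
def Small {n : ℕ} (S : Finset (Finset (Fin n))) (d : ℕ) (F : Finset (Fin n)) : Prop :=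
  gammaTwo S d F ≤ 3 ∨
  (d ≤ F.card + 7 ∧ ∀ G ∈ S, F ⊆ G → G.card + 6 = d → gammaTwo S d G ≤ 5) ∨
  (F.card + 8 ≤ d ∧ ∀ G ∈ S, F ⊆ G → G.card + 8 = d → gammaTwo S d G ≤ 3) ∨
  (F.card + 6 ≤ d ∧ ∀ G ∈ S, F ⊆ G → G.card + 6 = d → gammaTwo S d G ≤ 2)

/-- `OctRed d K S T`: the complex `T` is obtained from the flag homology `(d-1)`-sphere `S` by
a sequence of contractions of edges `a b` with `a` and `b` outside `K`, contained in no induced
4-cycle, and with `2 (d - 2)` vertices in the link of `a b`, that is, the link is the boundary of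
a cross-polytope. -/
inductive OctRed {n : ℕ} (d : ℕ) (K : Finset (Fin n)) :
    Finset (Finset (Fin n)) → Finset (Finset (Fin n)) → Prop
  | refl (S : Finset (Finset (Fin n))) : OctRed d K S S
  | step (S T : Finset (Finset (Fin n))) (a b : Fin n) : a ≠ b → a ∉ K → b ∉ K → {a, b} ∈ S →
      (∀ s t, {a, s} ∈ S → {b, t} ∈ S → {s, t} ∈ S → {b, s} ∈ S ∨ {a, t} ∈ S) →
      faces (link S {a, b}) 1 = 2 * (d - 2) → OctRed d K (contract S a b) T → OctRed d K S T

/-- `T` is a suspension and `x` is one of its poles: there is a vertex `y` not adjacent to `x` such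
that all other vertices are adjacent to both `x` and `y`. -/
def IsPole {n : ℕ} (T : Finset (Finset (Fin n))) (x : Fin n) : Prop :=
  ∃ y, {y} ∈ T ∧ y ≠ x ∧ {x, y} ∉ T ∧ ∀ w, {w} ∈ T → w ≠ x → w ≠ y → {x, w} ∈ T ∧ {y, w} ∈ T

/-- `T` is the boundary of a `d`-dimensional cross-polytope with vertex set `U` and antipodal
map `c`. -/
def IsCross {n : ℕ} (d : ℕ) (T : Finset (Finset (Fin n))) : Prop :=
  ∃ (U : Finset (Fin n)) (c : Fin n → Fin n), U.card = 2 * d ∧
    (∀ v ∈ U, c v ∈ U ∧ c v ≠ v ∧ c (c v) = v) ∧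
    ∀ F : Finset (Fin n), F ∈ T ↔ F ⊆ U ∧ ∀ v ∈ F, c v ∉ F

theorem faces_one {k : Type} [Field k] {n d : ℕ} {S : Finset (Finset (Fin n))}
    (h : Pool.Agent.MP19e880.HS k S d) (F : Finset (Fin n)) :
    faces (link S F) 1 = (Pool.Agent.MP19e880.lv S F).card := by
  have h1 := Pool.Agent.MP19e880.LD.fm_lk h F 1
  rw [Pool.Agent.MP19e880.fn_one S h.down] at h1
  unfold Pool.Agent.MP19e880.LD.fm at h1
  exact_mod_cast h1

theorem octRed_iff {k : Type} [Field k] {n d : ℕ} {K : Finset (Fin n)}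
    {S T : Finset (Finset (Fin n))} (h : Pool.Agent.MP19e880.HS k S d) :
    OctRed d K S T ↔ Pool.Agent.MP19e880.LD.OR d K S T := by
  constructor
  · intro ho
    induction ho with
    | refl S => exact .refl S
    | step S T a b h1 h2 h3 h4 h5 h6 _ ih =>
      have h7 := Pool.Agent.MP19e880.W1.hs_con h a b h1 h4 h5
      rw [faces_one h] at h6
      exact .step S T a b h1 h2 h3 h4 h5 h6 (ih h7)
  · intro ho
    induction ho with
    | refl S => exact .refl S
    | step S T a b h1 h2 h3 h4 h5 h6 _ ih =>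
      have h7 := Pool.Agent.MP19e880.W1.hs_con h a b h1 h4 h5
      rw [← faces_one h] at h6
      exact .step S T a b h1 h2 h3 h4 h5 h6 (ih h7)

theorem vertices_eq {k : Type} [Field k] {n d : ℕ} {S : Finset (Finset (Fin n))}
    (h : Pool.Agent.MP19e880.HS k S d) (F : Finset (Fin n)) :
    Finset.univ.filter (fun v => {v} ∈ link S F) = Pool.Agent.MP19e880.lv S F := by
  ext v
  rw [Finset.mem_filter, Pool.Agent.MP19e880.mem_lv]
  unfold link
  rw [Finset.mem_filter, Finset.disjoint_singleton_left, Finset.singleton_union]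
  constructor
  · rintro ⟨_, _, h1, h2⟩
    exact ⟨h1, h2⟩
  · rintro ⟨h1, h2⟩
    exact ⟨Finset.mem_univ v,
      h.down _ h2 _ (Finset.singleton_subset_iff.mpr (Finset.mem_insert_self _ _)), h1, h2⟩

/-- Let `S` be a flag homology `(d-1)`-sphere over a field, `d ≥ 4`, and `F` a face.
(1) The link of `F` has the same `γ₂` as `S` if and only if `S` reduces by octahedral edge
contractions outside `F` and its link to a sphere `T` with the same link of `F` in which every
vertex of `F` is a pole, that is, to the join of the link of `F` with a cross-polytope.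
(2) In this case, for `|F| ≤ d - 4`, the entries `γ_i` of the gamma vectors of `S` and of the link
of `F` agree for `i ≥ 2`, and if `F` is small, then all `γ_i` are nonnegative.
(3) `γ₂ = 0` if and only if `S` reduces by octahedral edge contractions to a cross-polytope; for
`d ≥ 5` this is so if it holds for the links of all faces with `d - 4` vertices. -/
theorem result :
  ∀ (k : Type) [Field k] (n d : ℕ) (S : Finset (Finset (Fin n)))
    (r : Finset (Finset (Fin n)) → ℕ → ℕ),
    (∀ F ∈ S, ∀ G : Finset (Fin n), G ⊆ F → G ∈ S) →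
    (∀ F : Finset (Fin n), (∀ a ∈ F, ∀ b ∈ F, ({a, b} : Finset (Fin n)) ∈ S) → F ∈ S) →
    (∀ (L : Finset (Finset (Fin n))) (j : ℕ),
      r L j = Matrix.rank (Matrix.of
        (fun (A : {A : Finset (Fin n) // A ∈ L.filter (fun A => A.card = j - 1)})
             (B : {B : Finset (Fin n) // B ∈ L.filter (fun B => B.card = j)}) =>
          ∑ v ∈ B.1, if B.1.erase v = A.1
            then (-1 : k) ^ (B.1.filter (fun w => w < v)).card else 0))) →
    (∀ F ∈ S, ∀ j : ℕ,
      ((((S.filter (fun G => Disjoint G F ∧ G ∪ F ∈ S)).filter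
            (fun G => G.card = j)).card : ℤ)
        - (r (S.filter (fun G => Disjoint G F ∧ G ∪ F ∈ S)) j : ℤ)
        - (r (S.filter (fun G => Disjoint G F ∧ G ∪ F ∈ S)) (j + 1) : ℤ))
        = if j + F.card = d then 1 else 0) →
    4 ≤ d →
    ∀ γ : ℕ → ℤ,
      (∑ j ∈ Finset.range (d + 1),
          Polynomial.C (((S.filter (fun G => G.card = j)).card : ℕ) : ℤ)
            * Polynomial.X ^ j * (1 - Polynomial.X) ^ (d - j)
        = ∑ i ∈ Finset.range (d / 2 + 1),
          Polynomial.C (γ i) * Polynomial.X ^ i * (1 + Polynomial.X) ^ (d - 2 * i)) →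
      (∀ F ∈ S, gammaTwo S d F = gammaTwo S d ∅ ↔
        ∃ T, OctRed d (F ∪ Finset.univ.filter (fun v => {v} ∈ link S F)) S T ∧ F ∈ T ∧
          link T F = link S F ∧ ∀ x ∈ F, IsPole T x) ∧
      (∀ F ∈ S, F.card + 4 ≤ d → gammaTwo S d F = gammaTwo S d ∅ →
        (∀ γ' : ℕ → ℤ,
          (∑ j ∈ Finset.range (d - F.card + 1),
              Polynomial.C ((((link S F).filter (fun G => G.card = j)).card : ℕ) : ℤ)
                * Polynomial.X ^ j * (1 - Polynomial.X) ^ (d - F.card - j)
            = ∑ i ∈ Finset.range ((d - F.card) / 2 + 1),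
              Polynomial.C (γ' i) * Polynomial.X ^ i
                * (1 + Polynomial.X) ^ (d - F.card - 2 * i)) →
          ∀ i : ℕ, 2 ≤ i → i ≤ (d - F.card) / 2 → γ i = γ' i) ∧
        (∀ i : ℕ, (d - F.card) / 2 < i → i ≤ d / 2 → γ i = 0) ∧
        (Small S d F → ∀ i : ℕ, i ≤ d / 2 → 0 ≤ γ i)) ∧
      (gammaTwo S d ∅ = 0 ↔ ∃ T, OctRed d ∅ S T ∧ IsCross d T) ∧
      (5 ≤ d → (∀ F ∈ S, F.card + 4 = d → gammaTwo S d F = 0) → gammaTwo S d ∅ = 0) := by
  intro k _ n d S r hS hfl hr hrk hd γ hγ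
  have hrc : Pool.Agent.MP19e880.RankCond k S d := by
    intro F hF j
    have h := hrk F hF j
    rw [hr, hr] at h
    exact h
  have h := Pool.Agent.MP19e880.HS_of_rank S d hS hfl hrc
  obtain ⟨h1, h2, h3⟩ := Pool.Agent.MP19e880.DB.final h hd γ hγ
  refine ⟨?_, h1, ?_, h3⟩
  · intro F hF
    rw [vertices_eq h]
    refine Iff.trans (Pool.Agent.MP19e880.DB.rig h (by omega) hF) ?_
    exact exists_congr fun T => and_congr_left fun _ => (octRed_iff h).symm
  · refine Iff.trans h2 ?_
    exact exists_congr fun T => and_congr_left fun _ => (octRed_iff h).symm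

end Pool.Agent.Results.MP_19e880_co.SmallGammaTwo
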